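import Pool.Agent.helper23.HB.Stmts

/-!
# HB, module LDP: large deviation lower bound for one long block
-/

open MeasureTheory ProbabilityTheory Set Filter Topology
open scoped ENNReal NNReal

namespace Pool.Agent.helper8.HB
open Pool.Agent.helper23.HB

theorem ldp_gauss (h a η : ℝ) (hh : 0 < h) (_hη : 0 < η) :
    ENNReal.ofReal ((√(2 * Real.pi * h))⁻¹ * Real.exp (-((|a| + η) ^ 2 / 2) * h) *
      (2 * η * h)) ≤ gaussianReal 0 h.toNNReal (Icc (a * h - η * h) (a * h + η * h)) := by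
  have hv : h.toNNReal ≠ 0 := by
    rw [Ne, Real.toNNReal_eq_zero, not_le]; exact hh
  rw [gaussianReal_apply 0 hv]
  have h1 : ∫⁻ _ in Icc (a * h - η * h) (a * h + η * h),
      ENNReal.ofReal ((√(2 * Real.pi * h))⁻¹ * Real.exp (-((|a| + η) ^ 2 / 2) * h)) ≤
      ∫⁻ x in Icc (a * h - η * h) (a * h + η * h), gaussianPDF 0 h.toNNReal x := by
    refine setLIntegral_mono' measurableSet_Icc fun x hx => ?_
    rw [gaussianPDF]
    refine ENNReal.ofReal_le_ofReal ?_
    rw [gaussianPDFReal, Real.coe_toNNReal _ hh.le]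
    refine mul_le_mul_of_nonneg_left (Real.exp_le_exp.2 ?_) (by positivity)
    have hx1 : |x| ≤ (|a| + η) * h := by
      rw [abs_le]
      have h2 := le_abs_self a
      have h3 := neg_abs_le a
      constructor
      · nlinarith [hx.1]
      · nlinarith [hx.2]
    have hx2 : x ^ 2 ≤ ((|a| + η) * h) ^ 2 := by
      rw [← sq_abs]
      exact pow_le_pow_left₀ (abs_nonneg _) hx1 2
    rw [sub_zero, neg_mul, neg_div, neg_le_neg_iff, div_le_iff₀ (by positivity)]
    calc x ^ 2 ≤ ((|a| + η) * h) ^ 2 := hx2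
      _ = (|a| + η) ^ 2 / 2 * h * (2 * h) := by ring
  refine le_trans (le_of_eq ?_) h1
  rw [setLIntegral_const, Real.volume_Icc, ← ENNReal.ofReal_mul (by positivity)]
  congr 2
  ring

theorem mLDP (hGAU : St_GAU) : St_LDP := by
  intro Ω _ P _ X hX a η hη
  set α := (|a| + η) ^ 2 / 2 with hα
  have hα0 : 0 ≤ α := by positivity
  set h : ℝ := max 1 ((3 * √(2 * Real.pi) / (2 * η)) ^ 2) with hh
  have h1 : 1 ≤ h := le_max_left _ _
  have h0 : 0 < h := by linarith
  set K : ℝ := √(2 * (α + η + 1)) with hK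
  have hK0 : 0 < K := Real.sqrt_pos.2 (by positivity)
  refine ⟨h, K, h1, hK0, ?_⟩
  obtain ⟨g1, g2, -, -⟩ := hGAU Ω P X hX h h0
  have hDm : Measurable (fun ω => (blk h (X ω) 0).1) := by
    unfold blk
    exact (hX.meas _).sub (hX.meas _)
  -- the Gaussian part
  have hA : ENNReal.ofReal ((√(2 * Real.pi * h))⁻¹ * Real.exp (-α * h) * (2 * η * h)) ≤
      P {ω | |(blk h (X ω) 0).1 - a * h| ≤ η * h} := by
    refine (ldp_gauss h a η h0 hη).trans (le_of_eq ?_)
    rw [← g1, Measure.map_apply hDm measurableSet_Icc]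
    congr 1
    ext ω
    simp only [mem_preimage, mem_Icc, mem_ofPred_eq, abs_le]
    constructor
    · rintro ⟨h1, h2⟩; constructor <;> linarith
    · rintro ⟨h1, h2⟩; constructor <;> linarith
  -- the bad event
  have hBad := g2 (K * h) (by positivity)
  have e1 : 2 * Real.exp (-(K * h) ^ 2 / (2 * h)) = 2 * Real.exp (-(α + η + 1) * h) := by
    congr 2
    have hK2 : K ^ 2 = 2 * (α + η + 1) := Real.sq_sqrt (by positivity)
    rw [mul_pow, hK2]
    field_simp
  rw [e1] at hBad
  have hsplit : P {ω | |(blk h (X ω) 0).1 - a * h| ≤ η * h} ≤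
      P {ω | |(blk h (X ω) 0).1 - a * h| ≤ η * h ∧ (blk h (X ω) 0).2 ≤ K * h} +
        P {ω | K * h ≤ (blk h (X ω) 0).2} := by
    refine (measure_mono ?_).trans (measure_union_le _ _)
    intro ω hω
    by_cases hS : (blk h (X ω) 0).2 ≤ K * h
    · exact Or.inl ⟨hω, hS⟩
    · exact Or.inr (not_le.1 hS).le
  -- numerics
  have hnum : Real.exp (-(α + η) * h) + 2 * Real.exp (-(α + η + 1) * h) ≤
      (√(2 * Real.pi * h))⁻¹ * Real.exp (-α * h) * (2 * η * h) := by
    have hs : 3 * √(2 * Real.pi) / (2 * η) ≤ √h := by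
      apply Real.le_sqrt_of_sq_le
      exact le_max_right _ _
    have hpi : 0 < √(2 * Real.pi) := Real.sqrt_pos.2 (by positivity)
    have hsh : 0 < √h := Real.sqrt_pos.2 h0
    have e2 : (√(2 * Real.pi * h))⁻¹ * Real.exp (-α * h) * (2 * η * h) =
        (2 * η * √h / √(2 * Real.pi)) * Real.exp (-α * h) := by
      rw [Real.sqrt_mul (by positivity)]
      have hhs : h = √h * √h := (Real.mul_self_sqrt h0.le).symm
      field_simp
      nlinarith [hhs]
    have h3 : 3 ≤ 2 * η * √h / √(2 * Real.pi) := by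
      rw [le_div_iff₀ hpi]
      rw [div_le_iff₀ (by positivity)] at hs
      linarith
    have h4 : Real.exp (-(α + η) * h) ≤ Real.exp (-α * h) :=
      Real.exp_le_exp.2 (by nlinarith)
    have h5 : Real.exp (-(α + η + 1) * h) ≤ Real.exp (-α * h) :=
      Real.exp_le_exp.2 (by nlinarith)
    rw [e2]
    calc Real.exp (-(α + η) * h) + 2 * Real.exp (-(α + η + 1) * h) ≤
        3 * Real.exp (-α * h) := by linarith
      _ ≤ (2 * η * √h / √(2 * Real.pi)) * Real.exp (-α * h) :=
        mul_le_mul_of_nonneg_right h3 (Real.exp_pos _).le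
  have hfin : ENNReal.ofReal (2 * Real.exp (-(α + η + 1) * h)) ≠ ∞ := ENNReal.ofReal_ne_top
  refine (ENNReal.add_le_add_iff_right hfin).1 ?_
  calc ENNReal.ofReal (Real.exp (-(α + η) * h)) + ENNReal.ofReal (2 * Real.exp (-(α + η + 1) * h))
      = ENNReal.ofReal (Real.exp (-(α + η) * h) + 2 * Real.exp (-(α + η + 1) * h)) :=
        (ENNReal.ofReal_add (Real.exp_pos _).le (by positivity)).symm
    _ ≤ ENNReal.ofReal ((√(2 * Real.pi * h))⁻¹ * Real.exp (-α * h) * (2 * η * h)) :=
        ENNReal.ofReal_le_ofReal hnum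
    _ ≤ P {ω | |(blk h (X ω) 0).1 - a * h| ≤ η * h} := hA
    _ ≤ _ := hsplit.trans (add_le_add le_rfl hBad)

end Pool.Agent.helper8.HB
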